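import Mathlib

/-!
# Hougardy's conjecture on strict quasi-parity graphs: definitions
-/

set_option autoImplicit false

namespace Pool.Agent.H659Houg

open SimpleGraph

/-- `ChordlessPath G n u v`: there is a chordless (induced) path of length `n` (with `n` edges)
in `G` with ends `u` and `v`, that is, an embedding of the path graph on `n + 1` vertices as an
induced subgraph, sending its two ends to `u` and `v`. -/
def ChordlessPath {V : Type} (G : SimpleGraph V) (n : ℕ) (u v : V) : Prop :=
  ∃ f : pathGraph (n + 1) ↪g G, f 0 = u ∧ f (Fin.last n) = v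

/-- An even pair: two distinct vertices such that every chordless path between them has even
length. -/
def IsEvenPair {V : Type} (G : SimpleGraph V) (u v : V) : Prop :=
  u ≠ v ∧ ∀ n : ℕ, ChordlessPath G n u v → Even n

/-- Strict quasi-parity graph: every induced subgraph that is not a clique has an even pair. -/
def StrictQuasiParity {V : Type} (G : SimpleGraph V) : Prop :=
  ∀ S : Set V, ¬ G.IsClique S → ∃ u v : S, IsEvenPair (G.induce S) u v

/-- `G` contains an odd hole: an induced cycle of odd length `n ≥ 4`. -/
def HasOddHole {V : Type} (G : SimpleGraph V) : Prop :=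
  ∃ n : ℕ, 4 ≤ n ∧ Odd n ∧ Nonempty (cycleGraph n ↪g G)

/-- `G` contains an antihole: the complement of a hole on at least `5` vertices. -/
def HasAntihole {V : Type} (G : SimpleGraph V) : Prop :=
  ∃ n : ℕ, 5 ≤ n ∧ Nonempty ((cycleGraph n)ᶜ ↪g G)

/-- `G` is (isomorphic to) the line graph of a bipartite graph. -/
def IsLineGraphOfBipartite {V : Type} (G : SimpleGraph V) : Prop :=
  ∃ (W : Type) (H : SimpleGraph W), H.Colorable 2 ∧ Nonempty (G ≃g H.lineGraph)

/-- Hougardy's conjecture: there is a family `F` of (finite) line graphs of bipartite graphs such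
that a finite graph is strict quasi-parity if and only if it contains no odd hole, no antihole and
no member of `F` as an induced subgraph. (Every finite graph is isomorphic to one on `Fin n`, so
`F` is given as a set of graphs on the vertex sets `Fin n`.) -/
def HougardyConjecture : Prop :=
  ∃ F : Set (Σ n : ℕ, SimpleGraph (Fin n)),
    (∀ L ∈ F, IsLineGraphOfBipartite L.2) ∧
    ∀ (V : Type) [Finite V] (G : SimpleGraph V),
      StrictQuasiParity G ↔
        (¬ HasOddHole G ∧ ¬ HasAntihole G ∧ ∀ L ∈ F, ¬ Nonempty (L.2 ↪g G))

end Pool.Agent.H659Houg
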