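import Mathlib
import Pool.Agent.H659Houg.Defs

set_option autoImplicit false

namespace Pool.Agent.H659Houg

open SimpleGraph

/-- an induced path of length `n`, as a function on `ℕ` -/
def IndPath {V : Type} (G : SimpleGraph V) (n : ℕ) (f : ℕ → V) : Prop :=
  ∀ i j, i ≤ n → j ≤ n → (G.Adj (f i) (f j) ↔ (i + 1 = j ∨ j + 1 = i)) ∧ (f i = f j → i = j)

def verts : List ℕ := [0,1,2,3,4,5,6,7,8,9,10,11,12,13]

/-- `safe A b q k v avail d m`: every induced continuation of a path ending in `v` (length `d`,
vertex mask `m`) through available vertices to `b` satisfies `q`. -/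
def safe (A : ℕ → ℕ) (b : ℕ) (q : ℕ → ℕ → Bool) : ℕ → ℕ → ℕ → ℕ → ℕ → Bool
  | 0, _, _, _, _ => false
  | k+1, v, avail, d, m =>
    verts.all fun u =>
      !((A v &&& avail).testBit u) ||
        (if u == b then q (d+1) (m ||| (1 <<< u))
         else safe A b q k u (avail ^^^ (avail &&& A v)) (d+1) (m ||| (1 <<< u)))

theorem mem_verts (v : Fin 14) : (v : ℕ) ∈ verts := by
  fin_cases v <;> decide

theorem safe_sound (A : ℕ → ℕ) (G : SimpleGraph (Fin 14))
    (hA : ∀ u v : Fin 14, G.Adj u v ↔ (A u).testBit v = true)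
    (q : ℕ → ℕ → Bool) (n : ℕ) (f : ℕ → Fin 14) (hf : IndPath G n f) :
    ∀ k i avail m, i < n → (∀ j, i < j → j ≤ n → avail.testBit (f j) = true) →
      safe A (f n) q k (f i) avail i m = true →
      ∃ m', q n m' = true ∧ ∀ w, m'.testBit w = true →
        m.testBit w = true ∨ ∃ j, i < j ∧ j ≤ n ∧ w = (f j : ℕ) := by
  intro k
  induction k with
  | zero => intro i avail m _ _ h; simp [safe] at h
  | succ k ih =>
    intro i avail m hin hav h
    rw [safe, List.all_eq_true] at h
    have h1 := h (f (i+1)) (mem_verts _)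
    have hadj : (A (f i)).testBit (f (i+1)) = true :=
      (hA _ _).1 (((hf i (i+1) hin.le hin).1).2 (Or.inl rfl))
    have hcand : ((A (f i)) &&& avail).testBit (f (i+1)) = true := by
      rw [Nat.testBit_land, hadj, hav (i+1) (Nat.lt_succ_self i) hin]; rfl
    rw [hcand] at h1
    simp only [Bool.not_true, Bool.false_or] at h1
    by_cases hn : i + 1 = n
    · have hb : ((f (i+1) : ℕ) == (f n : ℕ)) = true := by rw [hn]; simp
      rw [hb] at h1
      simp only [if_true] at h1
      have h1' : q n (m ||| (1 <<< (f (i+1) : ℕ))) = true := by rw [← hn]; exact h1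
      refine ⟨_, h1', ?_⟩
      intro w hw
      rw [Nat.testBit_lor, Bool.or_eq_true] at hw
      rcases hw with hw | hw
      · exact Or.inl hw
      · refine Or.inr ⟨i+1, Nat.lt_succ_self i, hin, ?_⟩
        rw [Nat.one_shiftLeft, Nat.testBit_two_pow] at hw
        simpa using (of_decide_eq_true hw).symm
    · have hlt : i + 1 < n := lt_of_le_of_ne hin hn
      have hb : ((f (i+1) : ℕ) == (f n : ℕ)) = false := by
        rw [beq_eq_false_iff_ne]
        intro he
        exact hn ((hf (i+1) n hin le_rfl).2 (Fin.ext he))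
      rw [hb] at h1
      simp only [Bool.false_eq_true, if_false] at h1
      obtain ⟨m', hq, hm'⟩ := ih (i+1) _ _ hlt (by
        intro j hj hjn
        have hna : (A (f i)).testBit (f j) = false := by
          rw [Bool.eq_false_iff]
          intro hc
          have := ((hf i j hin.le hjn).1).1 ((hA _ _).2 hc)
          omega
        rw [Nat.testBit_xor, Nat.testBit_land, hna, hav j (by omega) hjn]; rfl) h1
      refine ⟨m', hq, ?_⟩
      intro w hw
      rcases hm' w hw with h2 | ⟨j, hj, hjn, rfl⟩
      · rw [Nat.testBit_lor, Bool.or_eq_true] at h2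
        rcases h2 with h2 | h2
        · exact Or.inl h2
        · refine Or.inr ⟨i+1, Nat.lt_succ_self i, hin, ?_⟩
          rw [Nat.one_shiftLeft, Nat.testBit_two_pow] at h2
          simpa using (of_decide_eq_true h2).symm
      · exact Or.inr ⟨j, by omega, hjn, rfl⟩

end Pool.Agent.H659Houg
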