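import Mathlib
import Pool.Agent.H659Houg.Core1

set_option autoImplicit false

namespace Pool.Agent.H659Houg

open SimpleGraph

/-- neighbourhoods of the vertices `0, ..., 13` of the counterexample, as bit masks -/
def adjL : List ℕ := [3898, 3893, 10834, 5537, 15559, 15563, 16180, 16184, 13003, 12743, 12539, 12535, 4088, 4084]
def pairsL : List (ℕ × ℕ × List ℕ) := [
  (0, 7, [4295]),
  (0, 12, [12423]),
  (1, 6, [8395]),
  (1, 13, [12363]),
  (4, 5, [828]),
  (4, 9, [2872]),
  (5, 8, [1844]),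
  (6, 7, [207]),
  (8, 10, [3876]),
  (9, 11, [3864]),
  (10, 11, [3852]),
  (12, 13, [12303]),
  (0, 6, [71, 4169]),
  (0, 13, [8199, 8329]),
  (1, 7, [139, 8326]),
  (1, 12, [4107, 4166]),
  (4, 8, [788, 1304]),
  (5, 9, [808, 2596]),
  (8, 11, [2344, 2820]),
  (9, 10, [1556, 1800]),
  (0, 2, [101, 325, 1093, 8229, 8453, 9221]),
  (1, 3, [154, 650, 2186, 4122, 4618, 6154]),
  (2, 8, [277, 404, 2309, 2436, 4372, 6404]),
  (3, 9, [554, 616, 1546, 1608, 8744, 9736]),
  (2, 5, [53, 180, 549, 676, 1076, 4148, 4644]),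
  (2, 7, [166, 228, 390, 452, 1158, 1220, 4292]),
  (2, 10, [1541, 1668, 3077, 3108, 3204, 5636, 7172]),
  (2, 12, [4134, 4358, 5126, 12324, 12420, 12548, 13316]),
  (3, 4, [58, 120, 282, 344, 2104, 8248, 8472]),
  (3, 6, [89, 216, 585, 712, 2121, 2248, 8392]),
  (3, 11, [2314, 2376, 3082, 3096, 3144, 10504, 11272]),
  (3, 13, [8217, 8713, 10249, 12312, 12360, 12808, 14344]),
  (2, 3, [15, 29, 46, 108, 156, 270, 332, 525, 652, 780, 1038, 1052, 1100, 2061, 2092, 2188, 4124, 4172, 4620, 6156, 8236, 8332, 8460, 9228])]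
def pathsL : List (List ℕ) := [
  [0, 5, 6, 2],
  [0, 1, 2, 6],
  [0, 1, 2, 6, 12, 7],
  [0, 1, 2, 13, 7, 12],
  [0, 1, 2, 13],
  [1, 4, 7, 3],
  [1, 0, 3, 7, 13, 6],
  [1, 0, 3, 7],
  [1, 0, 3, 12],
  [1, 0, 3, 12, 6, 13],
  [2, 1, 0, 3],
  [2, 4, 0, 5],
  [2, 1, 5, 7],
  [2, 4, 0, 8],
  [2, 9, 0, 10],
  [2, 1, 5, 12],
  [3, 5, 1, 4],
  [3, 0, 4, 6],
  [3, 5, 1, 9],
  [3, 8, 1, 11],
  [3, 0, 4, 13],
  [4, 2, 9, 8, 3, 5],
  [4, 2, 9, 8],
  [4, 11, 5, 3, 8, 9],
  [5, 10, 4, 2, 9, 8],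
  [5, 3, 8, 9],
  [6, 2, 1, 0, 3, 7],
  [8, 9, 2, 11, 5, 10],
  [8, 3, 5, 11],
  [9, 2, 4, 10],
  [9, 8, 3, 10, 4, 11],
  [10, 3, 8, 9, 2, 11],
  [12, 3, 0, 1, 2, 13]]


def adj (v : ℕ) : ℕ := adjL.getD v 0

/-- complement adjacency masks -/
def coadj (v : ℕ) : ℕ := (16383 ^^^ adj v) ^^^ (1 <<< v)

/-- The counterexample. -/
def G : SimpleGraph (Fin 14) where
  Adj u v := (adj u).testBit v = true
  symm := by
    have h : ∀ u v : Fin 14, (adj u).testBit v = true → (adj v).testBit u = true := by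
      decide +kernel
    exact ⟨fun u v => h u v⟩
  loopless := by
    have h : ∀ u : Fin 14, ¬ (adj u).testBit u = true := by decide +kernel
    exact ⟨h⟩

theorem G_adj (u v : Fin 14) : G.Adj u v ↔ (adj u).testBit v = true := Iff.rfl

theorem Gc_adj (u v : Fin 14) : Gᶜ.Adj u v ↔ (coadj u).testBit v = true := by
  have h : ∀ u v : Fin 14, (u ≠ v ∧ ¬ (adj u).testBit v = true) ↔ (coadj u).testBit v = true := by
    decide +kernel
  rw [compl_adj, G_adj]
  exact h u v

/-- (1) the mask lists are complete -/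
def maskCheck : Bool :=
  pairsL.all fun p =>
    safe adj p.2.1 (fun d m => d % 2 == 0 || p.2.2.any fun x => x &&& m == x) 15 p.1
      (16383 ^^^ (1 <<< p.1)) 0 (1 <<< p.1)

theorem maskCheck_true : maskCheck = true := by decide +kernel

/-- hole check: for every vertex `c` and all distinct nonadjacent neighbours `a`, `b` of `c`, every
chordless path from `a` to `b` with interior outside the closed neighbourhood of `c` satisfies `q` -/
def holeCheck (A : ℕ → ℕ) (q : ℕ → ℕ → Bool) : Bool :=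
  verts.all fun c => verts.all fun a => verts.all fun b =>
    !((A c).testBit a && (A c).testBit b && !(A a).testBit b && !(a == b)) ||
      safe A b q 15 a (((16383 ^^^ (A c)) ^^^ (1 <<< c)) ||| (1 <<< b)) 0 (1 <<< a)

theorem holeCheck_G : holeCheck adj (fun d _ => d % 2 == 0) = true := by decide +kernel

theorem holeCheck_Gc : holeCheck coadj (fun d _ => Nat.ble d 2) = true := by decide +kernel

/-- clique test for the set with mask `S` -/
def cliqueB (S : ℕ) : Bool :=
  verts.all fun u => !(S.testBit u) || ((adj u ||| (1 <<< u)) &&& S == S)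

def evenB (S : ℕ) : Bool :=
  pairsL.any fun p => S.testBit p.1 && S.testBit p.2.1 && p.2.2.all fun x => !(x &&& S == x)

def good (S : ℕ) : Bool := (S == 16383) || cliqueB S || evenB S

def checkAll : ℕ → ℕ → Bool
  | 0, S => good S
  | k+1, S => checkAll k S && checkAll k (S ||| (1 <<< k))

theorem checkAll_true : checkAll 14 0 = true := by decide +kernel

def tableLookup (u v : ℕ) : List ℕ :=
  match pathsL.find? (fun l => l.getD 0 0 == u && l.getD (l.length - 1) 0 == v) with
  | some l => l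
  | none =>
    match pathsL.find? (fun l => l.getD 0 0 == v && l.getD (l.length - 1) 0 == u) with
    | some l => l.reverse
    | none => [u, v]

def okPath (l : List ℕ) (u v : ℕ) : Bool :=
  l.length % 2 == 0 && Nat.ble 2 l.length && l.getD 0 0 == u && l.getD (l.length - 1) 0 == v &&
  (List.range l.length).all fun i => Nat.blt (l.getD i 0) 14 && (List.range l.length).all fun j =>
    ((adj (l.getD i 0)).testBit (l.getD j 0) == (i + 1 == j || j + 1 == i)) &&
      ((l.getD i 0 == l.getD j 0) == (i == j))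

theorem okPath_all : ∀ u v : Fin 14, u ≠ v → okPath (tableLookup u v) u v = true := by
  decide +kernel

end Pool.Agent.H659Houg
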