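import Mathlib
import Pool.Agent.H659Houg.Data

set_option autoImplicit false

namespace Pool.Agent.H659Houg

open SimpleGraph

theorem indPath_of_embedding {V : Type} {G : SimpleGraph V} {n : ℕ}
    (g : pathGraph (n + 1) ↪g G) :
    IndPath G n (fun i => g ⟨min i n, by omega⟩) := by
  intro i j hi hj
  have hi' : min i n = i := min_eq_left hi
  have hj' : min j n = j := min_eq_left hj
  constructor
  · rw [g.map_adj_iff, pathGraph_adj]
    simp only [hi', hj']
  · intro h
    have h1 := g.injective h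
    rw [Fin.mk.injEq, hi', hj'] at h1
    exact h1

theorem testBit_full (v : Fin 14) : Nat.testBit 16383 v = true := by
  fin_cases v <;> decide

theorem testBit_one_shl (a w : ℕ) : (1 <<< a).testBit w = decide (a = w) := by
  rw [Nat.one_shiftLeft, Nat.testBit_two_pow]

/-- completeness of the mask lists -/
theorem mask_sound (p : ℕ × ℕ × List ℕ) (hp : p ∈ pairsL) (n : ℕ) (f : ℕ → Fin 14)
    (hf : IndPath G n f) (h0 : (f 0 : ℕ) = p.1) (hn : (f n : ℕ) = p.2.1) (hodd : ¬ Even n) :
    ∃ x ∈ p.2.2, ∀ w, x.testBit w = true → ∃ j, j ≤ n ∧ w = (f j : ℕ) := by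
  have h := maskCheck_true
  rw [maskCheck, List.all_eq_true] at h
  have hp' := h p hp
  have hn0 : 0 < n := by
    rcases Nat.eq_zero_or_pos n with h | h
    · exact absurd (h ▸ Even.zero) hodd
    · exact h
  rw [← hn, ← h0] at hp'
  obtain ⟨m', hq, hm'⟩ := safe_sound adj G G_adj _ n f hf 15 0 _ _ hn0 (by
    intro j hj hjn
    rw [Nat.testBit_xor, testBit_full, testBit_one_shl]
    have : ¬ ((f 0 : ℕ) = f j) := by
      intro he
      have := (hf 0 j (Nat.zero_le _) hjn).2 (Fin.ext he)
      omega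
    simp [this]) hp'
  have hne : (n % 2 == 0) = false := by
    rw [beq_eq_false_iff_ne]
    intro h
    exact hodd (Nat.even_iff.2 h)
  rw [hne, Bool.false_or, List.any_eq_true] at hq
  obtain ⟨x, hx, hxm⟩ := hq
  rw [beq_iff_eq] at hxm
  refine ⟨x, hx, fun w hw => ?_⟩
  have hw' : m'.testBit w = true := by
    have : (x &&& m').testBit w = true := by rw [hxm]; exact hw
    rw [Nat.testBit_land, Bool.and_eq_true] at this
    exact this.2
  rcases hm' w hw' with h1 | ⟨j, _, hj, rfl⟩
  · rw [testBit_one_shl] at h1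
    exact ⟨0, Nat.zero_le _, (of_decide_eq_true h1).symm⟩
  · exact ⟨j, hj, rfl⟩

theorem checkAll_sound : ∀ k S, checkAll k S = true → (∀ i, i < k → S.testBit i = false) →
    ∀ T, (∀ i, k ≤ i → T.testBit i = S.testBit i) → good T = true := by
  intro k
  induction k with
  | zero =>
    intro S h _ T hT
    have : T = S := Nat.eq_of_testBit_eq fun i => hT i (Nat.zero_le _)
    rw [this]; exact h
  | succ k ih =>
    intro S h hS T hT
    rw [checkAll, Bool.and_eq_true] at h
    cases hb : T.testBit k with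
    | false =>
      refine ih S h.1 (fun i hi => hS i (by omega)) T (fun i hi => ?_)
      rcases Nat.eq_or_lt_of_le hi with rfl | hi
      · rw [hb, hS k (Nat.lt_succ_self k)]
      · exact hT i hi
    | true =>
      refine ih (S ||| (1 <<< k)) h.2 (fun i hi => ?_) T (fun i hi => ?_)
      · rw [Nat.testBit_lor, testBit_one_shl, hS i (by omega)]
        have : ¬ (k = i) := by omega
        simp [this]
      · rw [Nat.testBit_lor, testBit_one_shl]
        rcases Nat.eq_or_lt_of_le hi with rfl | hi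
        · simp [hb]
        · have : ¬ (k = i) := by omega
          rw [hT i hi]
          simp [this]

theorem pairs_ne : ∀ p ∈ pairsL, p.1 ≠ p.2.1 := by decide +kernel

open Classical in
theorem proper_sqp (T : Set (Fin 14)) (hT : T ≠ Set.univ) (hc : ¬ G.IsClique T) :
    ∃ a b : Fin 14, a ∈ T ∧ b ∈ T ∧ a ≠ b ∧ ∀ n (f : ℕ → Fin 14), IndPath G n f → f 0 = a →
      f n = b → (∀ j, j ≤ n → f j ∈ T) → Even n := by
  set S : ℕ := Nat.ofBits (fun i : Fin 14 => decide (i ∈ T)) with hSdef
  have hlt : ∀ v : Fin 14, S.testBit v = decide (v ∈ T) := by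
    intro v
    rw [hSdef, Nat.testBit_ofBits_lt _ _ v.2]
  have hge : ∀ i, 14 ≤ i → S.testBit i = false := by
    intro i hi
    rw [hSdef, Nat.testBit_ofBits_ge _ _ hi]
  have hgood : good S = true := by
    refine checkAll_sound 14 0 checkAll_true (fun i _ => Nat.zero_testBit i) S (fun i hi => ?_)
    rw [hge i hi, Nat.zero_testBit]
  rw [good, Bool.or_eq_true, Bool.or_eq_true] at hgood
  rcases hgood with (h | h) | h
  · exfalso
    rw [beq_iff_eq] at h
    apply hT
    rw [Set.eq_univ_iff_forall]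
    intro v
    have := hlt v
    rw [h, testBit_full] at this
    exact of_decide_eq_true this.symm
  · exfalso
    apply hc
    intro u hu v hv huv
    rw [cliqueB, List.all_eq_true] at h
    have h1 := h u (mem_verts u)
    have hSu : S.testBit u = true := by rw [hlt]; exact decide_eq_true hu
    rw [hSu, Bool.not_true, Bool.false_or, beq_iff_eq] at h1
    have hSv : S.testBit v = true := by rw [hlt]; exact decide_eq_true hv
    rw [← h1, Nat.testBit_land, Bool.and_eq_true, Nat.testBit_lor, Bool.or_eq_true,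
      testBit_one_shl] at hSv
    rcases hSv.1 with h2 | h2
    · exact h2
    · exact absurd (Fin.ext (of_decide_eq_true h2)) huv
  · rw [evenB, List.any_eq_true] at h
    obtain ⟨p, hp, h⟩ := h
    rw [Bool.and_eq_true, Bool.and_eq_true, List.all_eq_true] at h
    obtain ⟨⟨ha, hb⟩, hx⟩ := h
    have ha14 : p.1 < 14 := by
      by_contra hcon
      rw [hge _ (by omega)] at ha
      exact absurd ha (by decide)
    have hb14 : p.2.1 < 14 := by
      by_contra hcon
      rw [hge _ (by omega)] at hb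
      exact absurd hb (by decide)
    refine ⟨⟨p.1, ha14⟩, ⟨p.2.1, hb14⟩, ?_, ?_, ?_, ?_⟩
    · have := hlt ⟨p.1, ha14⟩
      rw [ha] at this
      exact of_decide_eq_true this.symm
    · have := hlt ⟨p.2.1, hb14⟩
      rw [hb] at this
      exact of_decide_eq_true this.symm
    · intro he
      exact pairs_ne p hp (by simpa using he)
    · intro n f hf h0 hn hin
      by_contra hodd
      obtain ⟨x, hxm, hxw⟩ := mask_sound p hp n f hf (by rw [h0]) (by rw [hn]) hodd
      have h2 := hx x hxm
      have h3 : x &&& S = x := by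
        apply Nat.eq_of_testBit_eq
        intro w
        rw [Nat.testBit_land]
        cases hxb : x.testBit w with
        | false => rfl
        | true =>
          obtain ⟨j, hj, rfl⟩ := hxw w hxb
          rw [hlt, Bool.true_and]
          exact decide_eq_true (hin j hj)
      rw [h3] at h2
      simp at h2

/-- there is an odd chordless path between any two distinct vertices of `G` -/
theorem odd_path (u v : Fin 14) (huv : u ≠ v) : ∃ n, ¬ Even n ∧ ChordlessPath G n u v := by
  have h := okPath_all u v huv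
  set l := tableLookup u v with hl
  rw [okPath] at h
  simp only [Bool.and_eq_true, beq_iff_eq, List.all_eq_true, List.mem_range] at h
  obtain ⟨⟨⟨⟨hpar, h2⟩, h0⟩, hlast⟩, hall⟩ := h
  have h2' : 2 ≤ l.length := Nat.le_of_ble_eq_true h2
  obtain ⟨n, hn⟩ : ∃ n, l.length = n + 1 := ⟨l.length - 1, by omega⟩
  have hlt14 : ∀ i : ℕ, i < n + 1 → l.getD i 0 < 14 := by
    intro i hi
    have := (hall i (by omega)).1
    rw [Nat.blt_eq] at this
    exact this
  have hrel : ∀ i j : ℕ, i < n + 1 → j < n + 1 →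
      ((adj (l.getD i 0)).testBit (l.getD j 0) = (i + 1 == j || j + 1 == i)) ∧
      ((l.getD i 0 == l.getD j 0) = (i == j)) := by
    intro i j hi hj
    exact (hall i (by omega)).2 j (by omega)
  refine ⟨n, ?_, ⟨⟨⟨fun i => ⟨l.getD i 0, hlt14 i i.2⟩, ?_⟩, ?_⟩, ?_, ?_⟩⟩
  · rw [Nat.even_iff]; omega
  · intro i j hij
    have h3 := (hrel i j i.2 j.2).2
    have h4 : l.getD i 0 = l.getD j 0 := by simpa using hij
    have h5 : (l.getD i 0 == l.getD j 0) = true := beq_iff_eq.2 h4
    rw [h5] at h3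
    exact Fin.ext (beq_iff_eq.1 h3.symm)
  · intro i j
    rw [pathGraph_adj]
    change (adj (l.getD i 0)).testBit (l.getD j 0) = true ↔ _
    rw [(hrel i j i.2 j.2).1, Bool.or_eq_true, beq_iff_eq, beq_iff_eq]
  · apply Fin.ext
    change l.getD 0 0 = u
    exact h0
  · apply Fin.ext
    change l.getD n 0 = v
    rw [← hlast, hn]
    rfl

theorem cyc_adj {n : ℕ} (hn : 3 ≤ n) (i j : ℕ) (hi : i < n) (hj : j < n) :
    (cycleGraph n).Adj ⟨i, hi⟩ ⟨j, hj⟩ ↔
      (i + 1 = j ∨ j + 1 = i) ∨ (i = 0 ∧ j + 1 = n) ∨ (j = 0 ∧ i + 1 = n) := by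
  rw [cycleGraph_adj']
  have key : ∀ a b : ℕ, ∀ ha : a < n, ∀ hb : b < n,
      ((⟨a, ha⟩ : Fin n) - ⟨b, hb⟩).val = 1 ↔ (b + 1 = a ∨ (a = 0 ∧ b + 1 = n)) := by
    intro a b ha hb
    rw [Fin.sub_def]
    change (n - b + a) % n = 1 ↔ _
    rcases Nat.lt_or_ge a b with hab | hab
    · rw [Nat.mod_eq_of_lt (by omega)]
      omega
    · have : n - b + a = (a - b) + n := by omega
      rw [this, Nat.add_mod_right, Nat.mod_eq_of_lt (by omega)]
      omega
  rw [key i j hi hj, key j i hj hi]
  omega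

theorem hole_sound (A : ℕ → ℕ) (G' : SimpleGraph (Fin 14))
    (hA : ∀ u v : Fin 14, G'.Adj u v ↔ (A u).testBit v = true) (q : ℕ → ℕ → Bool)
    (hq : holeCheck A q = true) (n : ℕ) (hn : 4 ≤ n) (g : cycleGraph n ↪g G') :
    ∃ m, q (n - 2) m = true := by
  have hmin : ∀ i, min i (n - 1) < n := by intro i; omega
  set f : ℕ → Fin 14 := fun i => g ⟨min i (n-1), hmin i⟩ with hf
  have hfi : ∀ i (hi : i < n), f i = g ⟨i, hi⟩ := by
    intro i hi
    have : min i (n-1) = i := by omega
    simp only [hf, this]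
  have hadj : ∀ i j, i < n → j < n → (G'.Adj (f i) (f j) ↔
      (i + 1 = j ∨ j + 1 = i) ∨ (i = 0 ∧ j + 1 = n) ∨ (j = 0 ∧ i + 1 = n)) := by
    intro i j hi hj
    rw [hfi i hi, hfi j hj, g.map_adj_iff, cyc_adj (by omega)]
  have hinj : ∀ i j, i < n → j < n → f i = f j → i = j := by
    intro i j hi hj h
    rw [hfi i hi, hfi j hj] at h
    have := g.injective h
    rw [Fin.mk.injEq] at this
    exact this
  have hpath : IndPath G' (n-2) f := by
    intro i j hi hj
    refine ⟨?_, fun h => hinj i j (by omega) (by omega) h⟩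
    rw [hadj i j (by omega) (by omega)]
    omega
  have h := hq
  rw [holeCheck, List.all_eq_true] at h
  have h1 := h (f (n-1)) (mem_verts _)
  rw [List.all_eq_true] at h1
  have h2 := h1 (f 0) (mem_verts _)
  rw [List.all_eq_true] at h2
  have h3 := h2 (f (n-2)) (mem_verts _)
  have e1 : (A (f (n-1))).testBit (f 0) = true :=
    (hA _ _).1 ((hadj (n-1) 0 (by omega) (by omega)).2 (by omega))
  have e2 : (A (f (n-1))).testBit (f (n-2)) = true :=
    (hA _ _).1 ((hadj (n-1) (n-2) (by omega) (by omega)).2 (by omega))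
  have e3 : (A (f 0)).testBit (f (n-2)) = false := by
    rw [Bool.eq_false_iff]
    intro hc
    have := (hadj 0 (n-2) (by omega) (by omega)).1 ((hA _ _).2 hc)
    omega
  have e4 : ((f 0 : ℕ) == (f (n-2) : ℕ)) = false := by
    rw [beq_eq_false_iff_ne]
    intro hc
    have := hinj 0 (n-2) (by omega) (by omega) (Fin.ext hc)
    omega
  rw [e1, e2, e3, e4] at h3
  simp only [Bool.not_false, Bool.and_true, Bool.not_true, Bool.false_or] at h3
  obtain ⟨m', hm', -⟩ := safe_sound A G' hA q (n-2) f hpath 15 0 _ _ (by omega) (by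
    intro j hj hjn
    rcases Nat.eq_or_lt_of_le hjn with rfl | hjn
    · rw [Nat.testBit_lor, testBit_one_shl]
      simp
    · rw [Nat.testBit_lor, Nat.testBit_xor, Nat.testBit_xor, testBit_full, testBit_one_shl,
        testBit_one_shl]
      have g1 : (A (f (n-1))).testBit (f j) = false := by
        rw [Bool.eq_false_iff]
        intro hc
        have := (hadj (n-1) j (by omega) (by omega)).1 ((hA _ _).2 hc)
        omega
      have g2 : ¬ ((f (n-1) : ℕ) = f j) := by
        intro hc
        have := hinj (n-1) j (by omega) (by omega) (Fin.ext hc)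
        omega
      rw [g1]
      simp [g2]) h3
  exact ⟨m', hm'⟩

theorem G_no_odd_hole : ¬ HasOddHole G := by
  rintro ⟨n, hn, hodd, ⟨g⟩⟩
  obtain ⟨m, hm⟩ := hole_sound adj G G_adj _ holeCheck_G n hn g
  rw [beq_iff_eq] at hm
  rw [Nat.odd_iff] at hodd
  omega

theorem G_no_antihole : ¬ HasAntihole G := by
  rintro ⟨n, hn, ⟨g⟩⟩
  have g' : cycleGraph n ↪g Gᶜ := by
    refine ⟨g.toEmbedding, ?_⟩
    intro a b
    change Gᶜ.Adj (g a) (g b) ↔ _
    rw [compl_adj, g.map_adj_iff, compl_adj]
    constructor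
    · rintro ⟨h1, h2⟩
      by_contra h3
      exact h2 ⟨fun h => h1 (by rw [h]), h3⟩
    · intro h
      exact ⟨fun he => h.ne (g.injective he), fun h2 => h2.2 h⟩
  obtain ⟨m, hm⟩ := hole_sound coadj Gᶜ Gc_adj _ holeCheck_Gc n (by omega) g'
  have := Nat.le_of_ble_eq_true hm
  omega

/-- line graphs are claw-free -/
theorem lineGraph_clawFree {W : Type} (H : SimpleGraph W) (e a b c : H.edgeSet)
    (ha : H.lineGraph.Adj e a) (hb : H.lineGraph.Adj e b) (hc : H.lineGraph.Adj e c)
    (hab : a ≠ b) (hac : a ≠ c) (hbc : b ≠ c) :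
    H.lineGraph.Adj a b ∨ H.lineGraph.Adj a c ∨ H.lineGraph.Adj b c := by
  rw [lineGraph_adj_iff_exists] at ha hb hc
  simp only [lineGraph_adj_iff_exists]
  obtain ⟨-, x, hxe, hxa⟩ := ha
  obtain ⟨-, y, hye, hyb⟩ := hb
  obtain ⟨-, z, hze, hzc⟩ := hc
  have : x = y ∨ x = z ∨ y = z := by
    obtain ⟨e, he⟩ := e
    induction e using Sym2.ind with
    | _ p q =>
      simp only [Sym2.mem_iff] at hxe hye hze
      rcases hxe with rfl | rfl <;> rcases hye with rfl | rfl <;> rcases hze with rfl | rfl <;> simp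
  rcases this with rfl | rfl | rfl
  · exact Or.inl ⟨hab, _, hxa, hyb⟩
  · exact Or.inr (Or.inl ⟨hac, _, hxa, hzc⟩)
  · exact Or.inr (Or.inr ⟨hbc, _, hyb, hzc⟩)

theorem G_not_lineGraph {W : Type} (H : SimpleGraph W) : ¬ Nonempty (G ≃g H.lineGraph) := by
  rintro ⟨φ⟩
  have hadj : ∀ u v : Fin 14, H.lineGraph.Adj (φ u) (φ v) ↔ G.Adj u v := fun u v => φ.map_adj_iff
  have h03 : G.Adj 0 3 := by change (adj 0).testBit 3 = true; decide +kernel
  have h04 : G.Adj 0 4 := by change (adj 0).testBit 4 = true; decide +kernel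
  have h09 : G.Adj 0 9 := by change (adj 0).testBit 9 = true; decide +kernel
  have h34 : ¬ G.Adj 3 4 := by change ¬ (adj 3).testBit 4 = true; decide +kernel
  have h39 : ¬ G.Adj 3 9 := by change ¬ (adj 3).testBit 9 = true; decide +kernel
  have h49 : ¬ G.Adj 4 9 := by change ¬ (adj 4).testBit 9 = true; decide +kernel
  have := lineGraph_clawFree H (φ 0) (φ 3) (φ 4) (φ 9) ((hadj _ _).2 h03) ((hadj _ _).2 h04)
    ((hadj _ _).2 h09) (fun h => absurd (φ.injective h) (by decide))
    (fun h => absurd (φ.injective h) (by decide)) (fun h => absurd (φ.injective h) (by decide))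
  rw [hadj, hadj, hadj] at this
  rcases this with h | h | h
  · exact h34 h
  · exact h39 h
  · exact h49 h

theorem G_not_clique : ¬ G.IsClique Set.univ := by
  intro h
  have h1 : G.Adj 3 4 := h (Set.mem_univ _) (Set.mem_univ _) (by decide)
  have h34 : ¬ G.Adj 3 4 := by change ¬ (adj 3).testBit 4 = true; decide +kernel
  exact h34 h1

theorem G_not_sqp : ¬ StrictQuasiParity G := by
  intro h
  obtain ⟨u, v, huv, hev⟩ := h Set.univ G_not_clique
  obtain ⟨n, hn, f, h0, h1⟩ := odd_path u.1 v.1 (fun he => huv (Subtype.ext he))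
  refine hn (hev n ⟨⟨⟨fun i => ⟨f i, Set.mem_univ _⟩, ?_⟩, ?_⟩, ?_, ?_⟩)
  · intro i j hij
    have : f i = f j := by simpa using hij
    exact f.injective this
  · intro i j
    change G.Adj (f i) (f j) ↔ _
    exact f.map_adj_iff
  · exact Subtype.ext h0
  · exact Subtype.ext h1

/-- every graph that embeds in `G` as a proper induced subgraph is strict quasi-parity -/
theorem sqp_of_embedding {V : Type} (L : SimpleGraph V) (φ : L ↪g G)
    (hφ : ¬ Function.Surjective φ) : StrictQuasiParity L := by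
  intro S hS
  have hT : (φ '' S) ≠ Set.univ := by
    intro h
    apply hφ
    intro y
    have : y ∈ φ '' S := by rw [h]; trivial
    obtain ⟨x, _, hx⟩ := this
    exact ⟨x, hx⟩
  have hc : ¬ G.IsClique (φ '' S) := by
    intro h
    apply hS
    intro a ha b hb hab
    have := h (Set.mem_image_of_mem _ ha) (Set.mem_image_of_mem _ hb)
      (fun he => hab (φ.injective he))
    exact φ.map_adj_iff.1 this
  obtain ⟨a, b, ha, hb, hab, hev⟩ := proper_sqp _ hT hc
  obtain ⟨x, hx, rfl⟩ := ha
  obtain ⟨y, hy, rfl⟩ := hb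
  refine ⟨⟨x, hx⟩, ⟨y, hy⟩, fun he => hab (by rw [Subtype.mk.inj he]), ?_⟩
  rintro n ⟨g, hg0, hg1⟩
  have hp := indPath_of_embedding g
  refine hev n (fun i => φ (g ⟨min i n, by omega⟩).1) ?_ ?_ ?_ ?_
  · intro i j hi hj
    have hij := hp i j hi hj
    refine ⟨?_, ?_⟩
    · rw [φ.map_adj_iff]
      exact hij.1
    · intro he
      exact hij.2 (Subtype.ext (φ.injective he))
  · have : (⟨min 0 n, by omega⟩ : Fin (n+1)) = 0 := by
      apply Fin.ext; simp
    simp only [this, hg0]
  · have : (⟨min n n, by omega⟩ : Fin (n+1)) = Fin.last n := by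
      apply Fin.ext; simp
    simp only [this, hg1]
  · intro j _
    exact Set.mem_image_of_mem _ (g ⟨min j n, by omega⟩).2

theorem hougardy_false : ¬ HougardyConjecture := by
  rintro ⟨F, hF, hequiv⟩
  have hG := (hequiv (Fin 14) G).not.1 G_not_sqp
  have hex : ∃ L ∈ F, Nonempty (L.2 ↪g G) := by
    by_contra hcon
    push Not at hcon
    exact hG ⟨G_no_odd_hole, G_no_antihole, fun L hL ⟨f⟩ => (hcon L hL).false f⟩
  obtain ⟨L, hL, ⟨φ⟩⟩ := hex
  obtain ⟨W, H, -, ⟨ψ⟩⟩ := hF L hL
  have hns : ¬ Function.Surjective φ := by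
    intro hs
    exact G_not_lineGraph H ⟨(RelIso.ofSurjective φ hs).symm.trans ψ⟩
  have hsqp := sqp_of_embedding L.2 φ hns
  exact ((hequiv _ L.2).1 hsqp).2.2 L hL ⟨Embedding.refl⟩

end Pool.Agent.H659Houg
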